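import Pool.Agent.Helper17.IAN.StN

set_option autoImplicit false

namespace Pool.Agent.Helper48.IAN

open Finset Pool.Agent.Helper93.IA Pool.Agent.Helper17.IAN

variable {α β γ : Type} [Fintype α] [Fintype β] [Fintype γ] [DecidableEq α] [DecidableEq β]
  [DecidableEq γ]

private lemma sum_wt (x : α → β → γ → ℝ) (e : α × β) : ∑ u : Option γ, wt x e u = 1 := by
  rw [Fintype.sum_option]
  simp [wt]

private lemma sum_eq (x : α → β → γ → ℝ) (e : α × β) (c : γ) (p : Option γ → Prop)
    [DecidablePred p] (hp : ∀ u, p u ↔ u = some c) :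
    ∑ u : Option γ, wt x e u * (if p u then 1 else 0) = x e.1 e.2 c := by
  have h : ∀ u : Option γ, wt x e u * (if p u then (1 : ℝ) else 0) =
      if u = some c then wt x e u else 0 := by
    intro u
    by_cases hu : u = some c
    · rw [if_pos ((hp u).2 hu), if_pos hu, mul_one]
    · rw [if_neg (fun h => hu ((hp u).1 h)), if_neg hu, mul_zero]
  rw [Finset.sum_congr rfl (fun u _ => h u), Finset.sum_ite_eq' univ (some c)]
  simp [wt]

private lemma sum_ne (x : α → β → γ → ℝ) (e : α × β) (c : γ) (p : Option γ → Prop)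
    [DecidablePred p] (hp : ∀ u, p u ↔ u ≠ some c) :
    ∑ u : Option γ, wt x e u * (if p u then 1 else 0) = 1 - x e.1 e.2 c := by
  have h : ∀ u : Option γ, wt x e u * (if p u then (1 : ℝ) else 0) =
      wt x e u - wt x e u * (if u = some c then (1 : ℝ) else 0) := by
    intro u
    by_cases hu : u = some c
    · rw [if_neg (fun h => (hp u).1 h hu), if_pos hu]
      ring
    · rw [if_pos ((hp u).2 hu), if_neg hu]
      ring
  rw [Finset.sum_congr rfl (fun u _ => h u), Finset.sum_sub_distrib, sum_wt x e,
    sum_eq x e c (fun u => u = some c) (fun u => Iff.rfl)]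

private lemma sum_tr (x : α → β → γ → ℝ) (e : α × β) (p : Option γ → Prop)
    [DecidablePred p] (hp : ∀ u, p u) :
    ∑ u : Option γ, wt x e u * (if p u then 1 else 0) = 1 := by
  have h : ∀ u : Option γ, wt x e u * (if p u then (1 : ℝ) else 0) = wt x e u := by
    intro u
    rw [if_pos (hp u), mul_one]
  rw [Finset.sum_congr rfl (fun u _ => h u), sum_wt x e]

theorem hPUS : StPUS := by
  classical
  intro hC hP α β γ _ _ _ _ _ _ x a b c
  set G : α × β → Option γ → Prop := fun e u =>
    (e.1 = a → e.2 = b → u = some c) ∧ (e.1 = a → e.2 ≠ b → u ≠ some c) ∧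
      (e.2 = b → e.1 ≠ a → u ≠ some c) with hG
  have e1 : Pr x (fun σ => used σ a b c) = Pr x (fun σ => ∀ e, G e (σ e)) := by
    congr 1
    funext σ
    apply propext
    constructor
    · rintro ⟨h1, h2, h3⟩ ⟨a', b'⟩
      refine ⟨?_, ?_, ?_⟩
      · rintro h h'
        have h : a' = a := h
        have h' : b' = b := h'
        rw [h, h']
        exact h1
      · rintro h h'
        have h : a' = a := h
        rw [h]
        exact h2 b' h'
      · rintro h h'
        have h : b' = b := h
        rw [h]
        exact h3 a' h'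
    · intro h
      exact ⟨(h (a, b)).1 rfl rfl, fun b' hb' => (h (a, b')).2.1 rfl hb',
        fun a' ha' => (h (a', b)).2.2 rfl ha'⟩
  rw [e1, hC hP α β γ x G, Fintype.prod_prod_type,
    ← Finset.mul_prod_erase univ _ (Finset.mem_univ a)]
  have f1 : ∑ u : Option γ, wt x (a, b) u * (if G (a, b) u then 1 else 0) = x a b c := by
    refine sum_eq x (a, b) c (fun u => G (a, b) u) (fun u => ?_)
    constructor
    · intro h
      exact h.1 rfl rfl
    · intro h
      exact ⟨fun _ _ => h, fun _ h' => absurd rfl h', fun _ h' => absurd rfl h'⟩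
  have f2 : ∀ b', b' ≠ b → ∑ u : Option γ, wt x (a, b') u * (if G (a, b') u then 1 else 0) =
      1 - x a b' c := by
    intro b' hb'
    refine sum_ne x (a, b') c (fun u => G (a, b') u) (fun u => ?_)
    constructor
    · intro h
      exact h.2.1 rfl hb'
    · intro h
      exact ⟨fun _ h' => absurd h' hb', fun _ _ => h, fun h' _ => absurd h' hb'⟩
  have f3 : ∀ a', a' ≠ a → ∑ u : Option γ, wt x (a', b) u * (if G (a', b) u then 1 else 0) =
      1 - x a' b c := by
    intro a' ha'
    refine sum_ne x (a', b) c (fun u => G (a', b) u) (fun u => ?_)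
    constructor
    · intro h
      exact h.2.2 rfl ha'
    · intro h
      exact ⟨fun h' _ => absurd h' ha', fun h' _ => absurd h' ha', fun _ _ => h⟩
  have f4 : ∀ a' b', a' ≠ a → b' ≠ b →
      ∑ u : Option γ, wt x (a', b') u * (if G (a', b') u then 1 else 0) = 1 := by
    intro a' b' ha' hb'
    refine sum_tr x (a', b') (fun u => G (a', b') u) (fun u => ?_)
    exact ⟨fun h' _ => absurd h' ha', fun h' _ => absurd h' ha', fun h' _ => absurd h' hb'⟩
  have g1 : (∏ b', ∑ u : Option γ, wt x (a, b') u * (if G (a, b') u then 1 else 0)) =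
      x a b c * ∏ b' ∈ univ.erase b, (1 - x a b' c) := by
    rw [← Finset.mul_prod_erase univ _ (Finset.mem_univ b), f1]
    congr 1
    exact Finset.prod_congr rfl (fun b' hb' => f2 b' (Finset.ne_of_mem_erase hb'))
  have g2 : ∀ a', a' ≠ a →
      (∏ b', ∑ u : Option γ, wt x (a', b') u * (if G (a', b') u then 1 else 0)) =
      1 - x a' b c := by
    intro a' ha'
    rw [← Finset.mul_prod_erase univ _ (Finset.mem_univ b), f3 a' ha']
    rw [Finset.prod_eq_one (fun b' hb' => f4 a' b' ha' (Finset.ne_of_mem_erase hb')), mul_one]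
  rw [g1, Finset.prod_congr rfl (fun a' ha' => g2 a' (Finset.ne_of_mem_erase ha'))]
  ring

end Pool.Agent.Helper48.IAN
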